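import Pool.Agent.Helper58.Qip.Stmts

set_option autoImplicit false

/-!
The pointwise ergodic theorem for the averaging operator of a finite family of measure
preserving maps.
-/

open MeasureTheory Filter Topology
open scoped ENNReal NNReal
open Pool.Agent.Helper58.Qip

namespace Pool.Agent.Helper93.Qip

variable {Ω D : Type} [MeasurableSpace Ω] [Fintype D] {P : Measure Ω} (S : RevSys Ω D P)

lemma meas_R {f : Ω → ℝ} (hf : Measurable f) : Measurable (S.R f) := by
  unfold RevSys.R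
  exact (Finset.measurable_fun_sum _ fun e _ => hf.comp (S.mp e).measurable).div_const _

lemma int_R {f : Ω → ℝ} (hf : Integrable f P) : Integrable (S.R f) P := by
  unfold RevSys.R
  refine (integrable_finsetSum _ fun e _ => ?_).div_const _
  exact (S.mp e).integrable_comp_of_integrable hf

lemma integral_R [Nonempty D] {f : Ω → ℝ} (hf : Integrable f P) :
    ∫ ω, S.R f ω ∂P = ∫ ω, f ω ∂P := by
  have hc : (Fintype.card D : ℝ) ≠ 0 := by
    exact_mod_cast Fintype.card_ne_zero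
  have h1 : ∀ e, ∫ ω, f (S.σ e ω) ∂P = ∫ ω, f ω ∂P := by
    intro e
    have h := integral_map (μ := P) (S.mp e).measurable.aemeasurable
      (f := f) (by rw [(S.mp e).map_eq]; exact hf.aestronglyMeasurable)
    rw [(S.mp e).map_eq] at h
    exact h.symm
  have h2 : ∫ ω, (∑ e, f (S.σ e ω)) ∂P = ∑ e, ∫ ω, f (S.σ e ω) ∂P :=
    integral_finsetSum _ fun e _ => (S.mp e).integrable_comp_of_integrable hf
  unfold RevSys.R
  rw [integral_div, h2]
  simp only [h1, Finset.sum_const, Finset.card_univ, nsmul_eq_mul]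
  field_simp

lemma R_mono {f g : Ω → ℝ} (h : ∀ ω, f ω ≤ g ω) (ω : Ω) : S.R f ω ≤ S.R g ω := by
  unfold RevSys.R
  gcongr with e
  exact h _

lemma R_add (f g : Ω → ℝ) (ω : Ω) :
    S.R (fun ω => f ω + g ω) ω = S.R f ω + S.R g ω := by
  unfold RevSys.R
  rw [Finset.sum_add_distrib, add_div]

lemma R_sub (f g : Ω → ℝ) (ω : Ω) :
    S.R (fun ω => f ω - g ω) ω = S.R f ω - S.R g ω := by
  unfold RevSys.R
  rw [Finset.sum_sub_distrib, sub_div]

lemma R_mul (c : ℝ) (f : Ω → ℝ) (ω : Ω) :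
    S.R (fun ω => c * f ω) ω = c * S.R f ω := by
  unfold RevSys.R
  rw [← Finset.mul_sum, mul_div_assoc]

lemma R_const [Nonempty D] (c : ℝ) (ω : Ω) : S.R (fun _ => c) ω = c := by
  have hc : (Fintype.card D : ℝ) ≠ 0 := by
    exact_mod_cast Fintype.card_ne_zero
  unfold RevSys.R
  simp only [Finset.sum_const, Finset.card_univ, nsmul_eq_mul]
  field_simp

lemma R_sum {ι : Type} (s : Finset ι) (f : ι → Ω → ℝ) (ω : Ω) :
    S.R (fun ω => ∑ i ∈ s, f i ω) ω = ∑ i ∈ s, S.R (f i) ω := by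
  unfold RevSys.R
  rw [Finset.sum_comm, Finset.sum_div]

/-! ### Iterates -/

lemma meas_Rit {f : Ω → ℝ} (hf : Measurable f) (n : ℕ) : Measurable (S.Rit f n) := by
  induction n with
  | zero => exact hf
  | succ n ih => exact meas_R S ih

lemma int_Rit {f : Ω → ℝ} (hf : Integrable f P) (n : ℕ) : Integrable (S.Rit f n) P := by
  induction n with
  | zero => exact hf
  | succ n ih => exact int_R S ih

lemma Rit_R (f : Ω → ℝ) (n : ℕ) : S.Rit (S.R f) n = S.Rit f (n + 1) := by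
  induction n with
  | zero => rfl
  | succ n ih =>
    change S.R (S.Rit (S.R f) n) = S.R (S.Rit f (n + 1))
    rw [ih]

lemma Rit_sub (f g : Ω → ℝ) (n : ℕ) :
    S.Rit (fun ω => f ω - g ω) n = fun ω => S.Rit f n ω - S.Rit g n ω := by
  induction n with
  | zero => rfl
  | succ n ih =>
    funext ω
    change S.R (S.Rit _ n) ω = _
    rw [ih]
    exact R_sub S _ _ ω

lemma Rit_add (f g : Ω → ℝ) (n : ℕ) :
    S.Rit (fun ω => f ω + g ω) n = fun ω => S.Rit f n ω + S.Rit g n ω := by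
  induction n with
  | zero => rfl
  | succ n ih =>
    funext ω
    change S.R (S.Rit _ n) ω = _
    rw [ih]
    exact R_add S _ _ ω

lemma Rit_const [Nonempty D] (c : ℝ) (n : ℕ) : S.Rit (fun _ => c) n = fun _ => c := by
  induction n with
  | zero => rfl
  | succ n ih =>
    funext ω
    change S.R (S.Rit _ n) ω = _
    rw [ih]
    exact R_const S c ω

lemma Rit_mono {f g : Ω → ℝ} (h : ∀ ω, f ω ≤ g ω) (n : ℕ) (ω : Ω) :
    S.Rit f n ω ≤ S.Rit g n ω := by
  induction n generalizing ω with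
  | zero => exact h ω
  | succ n ih => exact R_mono S ih ω

lemma Rit_abs (f : Ω → ℝ) (n : ℕ) (ω : Ω) :
    |S.Rit f n ω| ≤ S.Rit (fun ω => |f ω|) n ω := by
  induction n generalizing ω with
  | zero => exact le_rfl
  | succ n ih =>
    change |S.R (S.Rit f n) ω| ≤ S.R (S.Rit _ n) ω
    unfold RevSys.R
    rw [abs_div, abs_of_nonneg (by positivity : (0:ℝ) ≤ (Fintype.card D : ℝ))]
    gcongr
    refine (Finset.abs_sum_le_sum_abs _ _).trans ?_
    gcongr with e
    exact ih _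

lemma Rit_bound [Nonempty D] {f : Ω → ℝ} {C : ℝ} (h : ∀ ω, |f ω| ≤ C) (n : ℕ) (ω : Ω) :
    |S.Rit f n ω| ≤ C := by
  refine (Rit_abs S f n ω).trans ?_
  refine (Rit_mono S (g := fun _ => C) h n ω).trans ?_
  rw [Rit_const]

/-- Finite sums of the iterates. -/
noncomputable def Sm (f : Ω → ℝ) (n : ℕ) (ω : Ω) : ℝ := ∑ k ∈ Finset.range n, S.Rit f k ω

lemma Sm_succ (f : Ω → ℝ) (n : ℕ) (ω : Ω) :
    Sm S f (n + 1) ω = f ω + S.R (Sm S f n) ω := by
  unfold Sm
  rw [Finset.sum_range_succ', R_sum, add_comm]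
  rfl

lemma meas_Sm {f : Ω → ℝ} (hf : Measurable f) (n : ℕ) : Measurable (Sm S f n) := by
  unfold Sm
  exact Finset.measurable_fun_sum _ fun k _ => meas_Rit S hf k

lemma int_Sm {f : Ω → ℝ} (hf : Integrable f P) (n : ℕ) : Integrable (Sm S f n) P := by
  unfold Sm
  exact integrable_finsetSum _ fun k _ => int_Rit S hf k

/-- Running maximum of the finite sums. -/
noncomputable def Mx (f : Ω → ℝ) : ℕ → Ω → ℝ
  | 0 => fun _ => 0
  | n + 1 => fun ω => max (Mx f n ω) (Sm S f (n + 1) ω)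

lemma meas_Mx {f : Ω → ℝ} (hf : Measurable f) (n : ℕ) : Measurable (Mx S f n) := by
  induction n with
  | zero => exact measurable_const
  | succ n ih => exact ih.max (meas_Sm S hf (n + 1))

lemma int_Mx {f : Ω → ℝ} (hf : Integrable f P) (n : ℕ) : Integrable (Mx S f n) P := by
  induction n with
  | zero => exact integrable_zero _ _ _
  | succ n ih => exact ih.sup (int_Sm S hf (n + 1))

lemma Mx_nonneg (f : Ω → ℝ) (n : ℕ) (ω : Ω) : 0 ≤ Mx S f n ω := by
  induction n with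
  | zero => exact le_rfl
  | succ n ih => exact ih.trans (le_max_left _ _)

lemma Sm_le_Mx (f : Ω → ℝ) (N n : ℕ) (h : n ≤ N) (ω : Ω) : Sm S f n ω ≤ Mx S f N ω := by
  induction N with
  | zero =>
    have : n = 0 := by omega
    subst this
    simp [Sm, Mx]
  | succ N ih =>
    rcases Nat.lt_or_ge N n with h1 | h1
    · have : n = N + 1 := by omega
      subst this
      exact le_max_right _ _
    · exact (ih h1).trans (le_max_left _ _)

lemma Mx_le (f : Ω → ℝ) (N : ℕ) (ω : Ω) :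
    Mx S f N ω ≤ max 0 (f ω + S.R (Mx S f N) ω) := by
  have key : ∀ K N, K ≤ N → Mx S f K ω ≤ max 0 (f ω + S.R (Mx S f N) ω) := by
    intro K N hKN
    induction K with
    | zero => exact le_max_left _ _
    | succ K ih =>
      refine max_le (ih (by omega)) ?_
      refine le_trans ?_ (le_max_right _ _)
      rw [Sm_succ]
      gcongr
      exact R_mono S (fun ω => Sm_le_Mx S f N K (by omega) ω) ω
  exact key N N le_rfl

/-- Hopf's maximal inequality. -/
lemma hopf [Nonempty D] {f : Ω → ℝ} (hm : Measurable f) (hf : Integrable f P) (N : ℕ) :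
    0 ≤ ∫ ω in {ω | 0 < Mx S f N ω}, f ω ∂P := by
  set A : Set Ω := {ω | 0 < Mx S f N ω} with hA
  have hAm : MeasurableSet A := measurableSet_lt measurable_const (meas_Mx S hm N)
  have hM := int_Mx S hf N
  have hRM := int_R S hM
  have h1 : ∫ ω in A, Mx S f N ω ∂P = ∫ ω, Mx S f N ω ∂P := by
    refine setIntegral_eq_integral_of_forall_compl_eq_zero ?_
    intro ω hω
    have h2 : ¬ 0 < Mx S f N ω := hω
    exact le_antisymm (not_lt.mp h2) (Mx_nonneg S f N ω)
  have h2 : ∫ ω in A, S.R (Mx S f N) ω ∂P ≤ ∫ ω, S.R (Mx S f N) ω ∂P := by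
    refine setIntegral_le_integral hRM (Eventually.of_forall fun ω => ?_)
    have := R_mono S (f := fun _ => 0) (g := Mx S f N) (fun ω => Mx_nonneg S f N ω) ω
    rw [R_const] at this
    exact this
  rw [integral_R S hM] at h2
  have h3 : ∫ ω in A, (Mx S f N ω - S.R (Mx S f N) ω) ∂P ≤ ∫ ω in A, f ω ∂P := by
    refine setIntegral_mono_on (hM.integrableOn.sub hRM.integrableOn) hf.integrableOn hAm ?_
    intro ω hω
    have hpos : 0 < Mx S f N ω := hω
    have h4 := Mx_le S f N ω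
    rcases le_max_iff.mp h4 with h5 | h5
    · linarith
    · linarith
  rw [integral_sub hM.integrableOn hRM.integrableOn] at h3
  linarith

lemma Sm_add (f g : Ω → ℝ) (n : ℕ) (ω : Ω) :
    Sm S (fun ω => f ω + g ω) n ω = Sm S f n ω + Sm S g n ω := by
  unfold Sm
  simp only [Rit_add, Finset.sum_add_distrib]

lemma Sm_sub (f g : Ω → ℝ) (n : ℕ) (ω : Ω) :
    Sm S (fun ω => f ω - g ω) n ω = Sm S f n ω - Sm S g n ω := by
  unfold Sm
  simp only [Rit_sub, Finset.sum_sub_distrib]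

lemma Sm_const [Nonempty D] (c : ℝ) (n : ℕ) (ω : Ω) :
    Sm S (fun _ => c) n ω = n * c := by
  unfold Sm
  simp only [Rit_const, Finset.sum_const, Finset.card_range, nsmul_eq_mul]

lemma Sm_abs (f : Ω → ℝ) (n : ℕ) (ω : Ω) :
    |Sm S f n ω| ≤ Sm S (fun ω => |f ω|) n ω := by
  unfold Sm
  refine (Finset.abs_sum_le_sum_abs _ _).trans ?_
  gcongr with k
  exact Rit_abs S f k ω

lemma Sm_tele (g : Ω → ℝ) (n : ℕ) (ω : Ω) :
    Sm S (fun ω => g ω - S.R g ω) n ω = g ω - S.Rit g n ω := by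
  rw [Sm_sub]
  unfold Sm
  have h : ∀ k, S.Rit (S.R g) k ω = S.Rit g (k + 1) ω := fun k => congrFun (Rit_R S g k) ω
  simp only [h]
  rw [← Finset.sum_sub_distrib, Finset.sum_range_sub']
  rfl

/-- The maximal inequality. -/
lemma maximal [Nonempty D] [IsProbabilityMeasure P] {f : Ω → ℝ} (hm : Measurable f)
    (hf : Integrable f P) (hpos : ∀ ω, 0 ≤ f ω) {lam : ℝ} (hl : 0 < lam) :
    P {ω | ∃ n : ℕ, 1 ≤ n ∧ lam * n < Sm S f n ω} ≤ ENNReal.ofReal ((∫ ω, f ω ∂P) / lam) := by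
  set B : ℕ → Set Ω := fun N => {ω | ∃ n : ℕ, (1 ≤ n ∧ n ≤ N) ∧ lam * n < Sm S f n ω} with hB
  have hU : {ω | ∃ n : ℕ, 1 ≤ n ∧ lam * n < Sm S f n ω} = ⋃ N, B N := by
    ext ω
    simp only [Set.mem_ofPred_eq, Set.mem_iUnion, hB]
    constructor
    · rintro ⟨n, h1, h2⟩
      exact ⟨n, n, ⟨h1, le_rfl⟩, h2⟩
    · rintro ⟨N, n, ⟨h1, _⟩, h2⟩
      exact ⟨n, h1, h2⟩
  have hmono : Monotone B := by
    intro N M hNM ω hω
    obtain ⟨n, ⟨h1, h2⟩, h3⟩ := hω
    exact ⟨n, ⟨h1, h2.trans hNM⟩, h3⟩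
  rw [hU]
  refine le_of_tendsto' (tendsto_measure_iUnion_atTop hmono) fun N => ?_
  set g : Ω → ℝ := fun ω => f ω - lam with hg
  have hgm : Measurable g := hm.sub_const _
  have hgi : Integrable g P := hf.sub (integrable_const _)
  set A : Set Ω := {ω | 0 < Mx S g N ω} with hA
  have hAm : MeasurableSet A := measurableSet_lt measurable_const (meas_Mx S hgm N)
  have hsub : B N ⊆ A := by
    rintro ω ⟨n, ⟨h1, h2⟩, h3⟩
    have h4 : Sm S g n ω ≤ Mx S g N ω := Sm_le_Mx S g N n h2 ω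
    have h5 : Sm S g n ω = Sm S f n ω - n * lam := by
      rw [hg, Sm_sub S f (fun _ => lam), Sm_const]
    have h6 : 0 < Sm S g n ω := by rw [h5]; linarith
    exact lt_of_lt_of_le h6 h4
  have h1 := hopf S hgm hgi N
  have h2 : ∫ ω in A, g ω ∂P = ∫ ω in A, f ω ∂P - P.real A * lam := by
    rw [hg, integral_sub hf.integrableOn (integrable_const _)]
    simp
  have h3 : ∫ ω in A, f ω ∂P ≤ ∫ ω, f ω ∂P :=
    setIntegral_le_integral hf (Eventually.of_forall hpos)
  have h4 : P.real A ≤ (∫ ω, f ω ∂P) / lam := by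
    rw [le_div_iff₀ hl]
    have h5 : 0 ≤ ∫ ω in A, g ω ∂P := h1
    linarith
  calc P (B N) ≤ P A := measure_mono hsub
    _ = ENNReal.ofReal (P.real A) := (ofReal_measureReal).symm
    _ ≤ _ := ENNReal.ofReal_le_ofReal h4

/-! ### The mean ergodic theorem -/

/-- The isometry of `L2` induced by one of the maps. -/
noncomputable def U (e : D) : Lp ℝ 2 P →L[ℝ] Lp ℝ 2 P :=
  (Lp.compMeasurePreservingₗᵢ ℝ (S.σ e) (S.mp e)).toContinuousLinearMap

/-- The averaging operator on `L2`. -/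
noncomputable def T : Lp ℝ 2 P →L[ℝ] Lp ℝ 2 P :=
  (Fintype.card D : ℝ)⁻¹ • ∑ e, U S e

omit [Fintype D] in
lemma norm_U (e : D) (x : Lp ℝ 2 P) : ‖U S e x‖ = ‖x‖ :=
  (Lp.compMeasurePreservingₗᵢ ℝ (S.σ e) (S.mp e)).norm_map x

lemma T_apply (x : Lp ℝ 2 P) : T S x = (Fintype.card D : ℝ)⁻¹ • ∑ e, U S e x := by
  unfold T
  rw [smul_apply, sum_apply]

lemma norm_T [Nonempty D] : ‖T S‖ ≤ 1 := by
  have hc : (0 : ℝ) < (Fintype.card D : ℝ) := by
    exact_mod_cast Fintype.card_pos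
  refine ContinuousLinearMap.opNorm_le_bound _ zero_le_one fun x => ?_
  rw [T_apply, norm_smul, Real.norm_of_nonneg (by positivity)]
  calc (Fintype.card D : ℝ)⁻¹ * ‖∑ e, U S e x‖
      ≤ (Fintype.card D : ℝ)⁻¹ * ∑ e, ‖U S e x‖ := by gcongr; exact norm_sum_le _ _
    _ = 1 * ‖x‖ := by
      simp only [norm_U, Finset.sum_const, Finset.card_univ, nsmul_eq_mul]
      field_simp

lemma fixed_T [Nonempty D] {x : Lp ℝ 2 P} (hx : T S x = x) (e : D) : U S e x = x := by
  have hc : (0 : ℝ) < (Fintype.card D : ℝ) := by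
    exact_mod_cast Fintype.card_pos
  have h1 : ∑ e, inner ℝ x (U S e x) = ∑ _e : D, ‖x‖ ^ 2 := by
    have h2 : inner ℝ x (T S x) = ‖x‖ ^ 2 := by
      rw [hx]; exact real_inner_self_eq_norm_sq x
    rw [T_apply, inner_smul_right, inner_sum] at h2
    simp only [Finset.sum_const, Finset.card_univ, nsmul_eq_mul]
    field_simp at h2
    linarith
  have hle : ∀ e ∈ (Finset.univ : Finset D), inner ℝ x (U S e x) ≤ ‖x‖ ^ 2 := by
    intro e _
    refine (real_inner_le_norm _ _).trans ?_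
    rw [norm_U, sq]
  have h3 := (Finset.sum_eq_sum_iff_of_le hle).mp h1 e (Finset.mem_univ e)
  have h4 : ‖U S e x - x‖ ^ 2 = 0 := by
    rw [norm_sub_sq_real, norm_U, real_inner_comm, h3]
    ring
  have h5 : ‖U S e x - x‖ = 0 := by
    exact pow_eq_zero_iff (two_ne_zero) |>.mp h4
  exact sub_eq_zero.mp (norm_eq_zero.mp h5)

omit [Fintype D] in
lemma U_toLp {g : Ω → ℝ} (hg : MemLp g 2 P) (e : D) :
    U S e (hg.toLp g) = (hg.comp_measurePreserving (S.mp e)).toLp (g ∘ S.σ e) := rfl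

lemma sum_toLp {ι : Type} (s : Finset ι) (g : ι → Ω → ℝ) (hg : ∀ i, MemLp (g i) 2 P)
    (hs : MemLp (fun ω => ∑ i ∈ s, g i ω) 2 P) :
    ∑ i ∈ s, (hg i).toLp (g i) = hs.toLp _ := by
  classical
  induction s using Finset.induction_on with
  | empty =>
    simp only [Finset.sum_empty]
    exact (MemLp.toLp_zero _).symm
  | insert a s ha ih =>
    have hs' : MemLp (fun ω => ∑ i ∈ s, g i ω) 2 P := memLp_finsetSum _ fun i _ => hg i
    rw [Finset.sum_insert ha, ih hs', ← MemLp.toLp_add]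
    congr 1
    funext ω
    simp [Finset.sum_insert ha]

lemma memLp_R {g : Ω → ℝ} (hg : MemLp g 2 P) : MemLp (S.R g) 2 P := by
  have h : MemLp (fun ω => (Fintype.card D : ℝ)⁻¹ * ∑ e, g (S.σ e ω)) 2 P :=
    (memLp_finsetSum _ fun e _ => hg.comp_measurePreserving (S.mp e)).const_mul _
  have h1 : S.R g = fun ω => (Fintype.card D : ℝ)⁻¹ * ∑ e, g (S.σ e ω) := by
    funext ω
    simp only [RevSys.R]
    rw [div_eq_inv_mul]
  rw [h1]
  exact h

lemma T_toLp {g : Ω → ℝ} (hg : MemLp g 2 P) (hR : MemLp (S.R g) 2 P) :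
    T S (hg.toLp g) = hR.toLp _ := by
  rw [T_apply]
  simp only [U_toLp]
  have hs : MemLp (fun ω => ∑ e, (g ∘ S.σ e) ω) 2 P :=
    memLp_finsetSum _ fun e _ => hg.comp_measurePreserving (S.mp e)
  rw [sum_toLp Finset.univ (fun e => g ∘ S.σ e) (fun e => hg.comp_measurePreserving (S.mp e)) hs,
    ← MemLp.toLp_const_smul]
  congr 1
  funext ω
  simp only [Pi.smul_apply, smul_eq_mul, RevSys.R, Function.comp]
  rw [div_eq_inv_mul]

lemma norm_toLp_sub_bound [IsProbabilityMeasure P] {u v : Ω → ℝ} (hu : MemLp u 2 P)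
    (hv : MemLp v 2 P) : ∫ ω, |u ω - v ω| ∂P ≤ ‖hu.toLp u - hv.toLp v‖ := by
  rw [← MemLp.toLp_sub, Lp.norm_toLp]
  have hw : MemLp (u - v) 2 P := hu.sub hv
  have h1 : ∫ ω, |u ω - v ω| ∂P = (eLpNorm (u - v) 1 P).toReal := by
    rw [eLpNorm_one_eq_lintegral_enorm, ← integral_norm_eq_lintegral_enorm hw.1]
    rfl
  rw [h1]
  refine ENNReal.toReal_mono hw.2.ne ?_
  exact eLpNorm_le_eLpNorm_of_exponent_le (by norm_num) hw.1

lemma mean_ergodic [Nonempty D] [IsProbabilityMeasure P] (hE : S.Erg) {h : Ω → ℝ}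
    (hm : Measurable h) {C : ℝ} (hb : ∀ ω, |h ω| ≤ C) :
    Tendsto (fun n : ℕ => ∫ ω, |Sm S h n ω / n - ∫ x, h x ∂P| ∂P) atTop (𝓝 0) := by
  have hL : ∀ n, MemLp (S.Rit h n) 2 P := fun n =>
    MemLp.of_bound (meas_Rit S hm n).aestronglyMeasurable C
      (Eventually.of_forall fun ω => Rit_bound S hb n ω)
  have hSm : ∀ n, MemLp (fun ω => ∑ k ∈ Finset.range n, S.Rit h k ω) 2 P := fun n =>
    memLp_finsetSum _ fun k _ => hL k
  have hA : ∀ n : ℕ, MemLp ((n : ℝ)⁻¹ • fun ω => ∑ k ∈ Finset.range n, S.Rit h k ω) 2 P :=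
    fun n => (hSm n).const_smul _
  have hit : ∀ n, (T S)^[n] ((hL 0).toLp h) = (hL n).toLp _ := by
    intro n
    induction n with
    | zero => rfl
    | succ n ih =>
      rw [Function.iterate_succ_apply', ih]
      exact T_toLp S (hL n) (hL (n + 1))
  have hav : ∀ n : ℕ, birkhoffAverage ℝ (T S) _root_.id n ((hL 0).toLp h) = (hA n).toLp _ := by
    intro n
    unfold birkhoffAverage birkhoffSum
    simp only [_root_.id, hit]
    rw [sum_toLp (Finset.range n) (fun k => S.Rit h k) hL (hSm n)]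
    exact (MemLp.toLp_const_smul _ (hSm n)).symm
  obtain ⟨p, hp, hlim⟩ : ∃ p : Lp ℝ 2 P, T S p = p ∧
      Tendsto (fun n : ℕ => (hA n).toLp _) atTop (𝓝 p) := by
    have h1 := (T S).tendsto_birkhoffAverage_orthogonalProjection (norm_T S) ((hL 0).toLp h)
    have h2 := (((T S).eqLocus (1 : Lp ℝ 2 P →L[ℝ] Lp ℝ 2 P)).orthogonalProjectionOnto
        ((hL 0).toLp h)).2
    simp only [hav] at h1
    exact ⟨_, h2, h1⟩
  obtain ⟨c, hc⟩ : ∃ c : ℝ, (p : Ω → ℝ) =ᵐ[P] fun _ => c := by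
    refine hE p (Lp.stronglyMeasurable p).measurable fun e => ?_
    have h1 : U S e p = p := fixed_T S hp e
    have h2 : (U S e p : Ω → ℝ) =ᵐ[P] (p : Ω → ℝ) ∘ S.σ e :=
      Lp.coeFn_compMeasurePreserving p (S.mp e)
    rw [h1] at h2
    exact h2.symm
  have hcL : MemLp (fun _ : Ω => c) 2 P := memLp_const c
  have hpc : p = hcL.toLp _ := by
    apply Lp.ext
    exact hc.trans hcL.coeFn_toLp.symm
  have hlim2 : Tendsto (fun n : ℕ => ∫ ω, |Sm S h n ω / n - c| ∂P) atTop (𝓝 0) := by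
    rw [hpc] at hlim
    rw [tendsto_iff_norm_sub_tendsto_zero] at hlim
    refine squeeze_zero (fun n => integral_nonneg fun ω => abs_nonneg _) (fun n => ?_) hlim
    have h1 := norm_toLp_sub_bound (hA n) hcL
    refine le_trans (le_of_eq ?_) h1
    congr 1
    funext ω
    change |Sm S h n ω / n - c| = |(n : ℝ)⁻¹ • (∑ k ∈ Finset.range n, S.Rit h k ω) - c|
    rw [smul_eq_mul, Sm, div_eq_inv_mul]
  have hint : Integrable h P := (hL 0).integrable (by norm_num)
  have hcI : c = ∫ x, h x ∂P := by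
    have h1 : ∀ᶠ n : ℕ in atTop, |(∫ x, h x ∂P) - c| ≤ ∫ ω, |Sm S h n ω / n - c| ∂P := by
      filter_upwards [eventually_ge_atTop 1] with n hn
      have hn' : (n : ℝ) ≠ 0 := by positivity
      have h2 : ∫ ω, (Sm S h n ω / n - c) ∂P = (∫ x, h x ∂P) - c := by
        rw [integral_sub ((int_Sm S hint n).div_const _) (integrable_const _), integral_div]
        unfold Sm
        rw [integral_finsetSum _ fun k _ => int_Rit S hint k]
        have h3 : ∀ k, ∫ ω, S.Rit h k ω ∂P = ∫ ω, h ω ∂P := by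
          intro k
          induction k with
          | zero => rfl
          | succ k ih => rw [← ih]; exact integral_R S (int_Rit S hint k)
        simp only [h3, Finset.sum_const, Finset.card_range, nsmul_eq_mul]
        simp
        field_simp
      rw [← h2]
      exact abs_integral_le_integral_abs
    have h4 : |(∫ x, h x ∂P) - c| ≤ 0 := ge_of_tendsto hlim2 h1
    have h5 : (∫ x, h x ∂P) - c = 0 := abs_eq_zero.mp (le_antisymm h4 (abs_nonneg _))
    linarith
  rw [hcI] at hlim2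
  exact hlim2

/-! ### Decomposition -/

lemma bounded_decomp [Nonempty D] [IsProbabilityMeasure P] (hE : S.Erg) {h : Ω → ℝ}
    (hm : Measurable h) {C : ℝ} (hb : ∀ ω, |h ω| ≤ C) {η : ℝ} (hη : 0 < η) :
    ∃ g : Ω → ℝ, Measurable g ∧ (∃ K, ∀ ω, |g ω| ≤ K) ∧
      ∫ ω, |h ω - (∫ x, h x ∂P) - (g ω - S.R g ω)| ∂P ≤ η := by
  have h1 := mean_ergodic S hE hm hb
  have h2 := (h1.eventually (gt_mem_nhds hη)).and (eventually_ge_atTop 1)
  obtain ⟨n, hn, hn1⟩ := h2.exists
  have hn' : (n : ℝ) ≠ 0 := by positivity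
  have hSb : ∀ k ω, |Sm S h k ω| ≤ k * C := by
    intro k ω
    refine (Sm_abs S h k ω).trans ?_
    have h3 : Sm S (fun ω => |h ω|) k ω ≤ Sm S (fun _ => C) k ω := by
      unfold Sm
      gcongr with j
      exact Rit_mono S hb j ω
    rwa [Sm_const] at h3
  refine ⟨fun ω => (∑ k ∈ Finset.range n, Sm S h k ω) / n, ?_, ⟨(∑ k ∈ Finset.range n, k * C) / n, ?_⟩, ?_⟩
  · exact (Finset.measurable_fun_sum _ fun k _ => meas_Sm S hm k).div_const _
  · intro ω
    rw [abs_div, abs_of_nonneg (by positivity : (0:ℝ) ≤ (n:ℝ))]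
    gcongr
    refine (Finset.abs_sum_le_sum_abs _ _).trans ?_
    gcongr with k
    exact hSb k ω
  · refine le_trans (le_of_eq ?_) hn.le
    congr 1
    funext ω
    congr 1
    have h4 : S.R (fun ω => (∑ k ∈ Finset.range n, Sm S h k ω) / n) ω
        = (∑ k ∈ Finset.range n, S.R (Sm S h k) ω) / n := by
      have h5 := R_mul S (n : ℝ)⁻¹ (fun ω => ∑ k ∈ Finset.range n, Sm S h k ω) ω
      rw [R_sum] at h5
      rw [div_eq_inv_mul, ← h5]
      congr 1
      funext ω
      rw [div_eq_inv_mul]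
    have h6 : ∀ k, Sm S h k ω - S.R (Sm S h k) ω = h ω - S.Rit h k ω := by
      intro k
      have h7 := Sm_succ S h k ω
      have h8 : Sm S h (k + 1) ω = Sm S h k ω + S.Rit h k ω := by
        unfold Sm
        rw [Finset.sum_range_succ]
      linarith
    rw [h4, ← sub_div, ← Finset.sum_sub_distrib]
    simp only [h6]
    rw [Finset.sum_sub_distrib]
    simp only [Finset.sum_const, Finset.card_range, nsmul_eq_mul]
    change _ = Sm S h n ω / n - _
    unfold Sm
    field_simp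
    ring

lemma exists_bounded [IsProbabilityMeasure P] {f : Ω → ℝ} (hm : Measurable f)
    (hf : Integrable f P) {η : ℝ} (hη : 0 < η) :
    ∃ h : Ω → ℝ, Measurable h ∧ (∃ C, ∀ ω, |h ω| ≤ C) ∧ ∫ ω, |f ω - h ω| ∂P ≤ η := by
  set h : ℕ → Ω → ℝ := fun n ω => max (-(n : ℝ)) (min (f ω) n) with hh
  have hmh : ∀ n, Measurable (h n) := fun n => measurable_const.max (hm.min measurable_const)
  have hlim : Tendsto (fun n => ∫ ω, |f ω - h n ω| ∂P) atTop (𝓝 (∫ _ω, (0 : ℝ) ∂P)) := by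
    refine tendsto_integral_of_dominated_convergence (fun ω => |f ω|) ?_ hf.abs ?_ ?_
    · intro n
      exact ((hm.sub (hmh n)).norm).aestronglyMeasurable
    · intro n
      refine Eventually.of_forall fun ω => ?_
      rw [Real.norm_eq_abs, abs_abs]
      have hn : (0 : ℝ) ≤ (n : ℝ) := by positivity
      simp only [hh]
      rcases le_total (f ω) n with h1 | h1
      · rw [min_eq_left h1]
        rcases le_total (-(n : ℝ)) (f ω) with h2 | h2
        · rw [max_eq_right h2]; simp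
        · rw [max_eq_left h2]
          rw [abs_of_nonpos (by linarith), abs_of_nonpos (by linarith)]
          linarith
      · rw [min_eq_right h1, max_eq_right (by linarith)]
        rw [abs_of_nonneg (by linarith), abs_of_nonneg (by linarith)]
        linarith
    · refine Eventually.of_forall fun ω => ?_
      refine tendsto_const_nhds.congr' ?_
      obtain ⟨N, hN⟩ := exists_nat_ge |f ω|
      filter_upwards [eventually_ge_atTop N] with n hn
      have hn2 : |f ω| ≤ n := hN.trans (by exact_mod_cast hn)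
      have h3 := abs_le.mp hn2
      simp only [hh]
      rw [min_eq_left h3.2, max_eq_right h3.1]
      simp
  rw [integral_zero] at hlim
  obtain ⟨n, hn⟩ := (hlim.eventually (gt_mem_nhds hη)).exists
  refine ⟨h n, hmh n, ⟨n, fun ω => ?_⟩, hn.le⟩
  rw [abs_le]
  exact ⟨le_max_left _ _, max_le (by have : (0:ℝ) ≤ (n:ℝ) := by positivity
                                     linarith) (min_le_right _ _)⟩

lemma decomp [Nonempty D] [IsProbabilityMeasure P] (hE : S.Erg) {f : Ω → ℝ}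
    (hm : Measurable f) (hf : Integrable f P) {η : ℝ} (hη : 0 < η) :
    ∃ g : Ω → ℝ, Measurable g ∧ (∃ K, ∀ ω, |g ω| ≤ K) ∧
      ∫ ω, |f ω - (∫ x, f x ∂P) - (g ω - S.R g ω)| ∂P ≤ η := by
  obtain ⟨h, hhm, ⟨C, hC⟩, hh⟩ := exists_bounded hm hf (show (0:ℝ) < η / 3 by positivity)
  obtain ⟨g, hgm, ⟨K, hK⟩, hg⟩ := bounded_decomp S hE hhm hC (show (0:ℝ) < η / 3 by positivity)
  refine ⟨g, hgm, ⟨K, hK⟩, ?_⟩
  have hhi : Integrable h P := Integrable.of_bound hhm.aestronglyMeasurable C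
    (Eventually.of_forall hC)
  have hgi : Integrable g P := Integrable.of_bound hgm.aestronglyMeasurable K
    (Eventually.of_forall hK)
  have i1 : Integrable (fun ω => |f ω - h ω|) P := (hf.sub hhi).abs
  have i2 : Integrable (fun ω => |h ω - (∫ x, h x ∂P) - (g ω - S.R g ω)|) P :=
    ((hhi.sub (integrable_const _)).sub (hgi.sub (int_R S hgi))).abs
  have h1 : |(∫ x, f x ∂P) - ∫ x, h x ∂P| ≤ η / 3 := by
    rw [← integral_sub hf hhi]
    exact abs_integral_le_integral_abs.trans hh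
  calc ∫ ω, |f ω - (∫ x, f x ∂P) - (g ω - S.R g ω)| ∂P
      ≤ ∫ ω, (|f ω - h ω| + |h ω - (∫ x, h x ∂P) - (g ω - S.R g ω)| + η / 3) ∂P := by
        refine integral_mono ((hf.sub (integrable_const _)).sub (hgi.sub (int_R S hgi))).abs
          ((i1.add i2).add (integrable_const _)) fun ω => ?_
        have h2 : f ω - (∫ x, f x ∂P) - (g ω - S.R g ω) =
          (f ω - h ω) + (h ω - (∫ x, h x ∂P) - (g ω - S.R g ω)) +
            -((∫ x, f x ∂P) - ∫ x, h x ∂P) := by ring
        change |f ω - (∫ x, f x ∂P) - (g ω - S.R g ω)| ≤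
          |f ω - h ω| + |h ω - (∫ x, h x ∂P) - (g ω - S.R g ω)| + η / 3
        rw [h2]
        refine (abs_add_three _ _ _).trans ?_
        rw [abs_neg]
        linarith
    _ = ∫ ω, |f ω - h ω| ∂P + ∫ ω, |h ω - (∫ x, h x ∂P) - (g ω - S.R g ω)| ∂P + η / 3 := by
        have e1 : ∫ ω, (|f ω - h ω| + |h ω - (∫ x, h x ∂P) - (g ω - S.R g ω)| + η / 3) ∂P =
            ∫ ω, (|f ω - h ω| + |h ω - (∫ x, h x ∂P) - (g ω - S.R g ω)|) ∂P + ∫ _ω, η / 3 ∂P :=
          integral_add (i1.add i2) (integrable_const _)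
        have e2 : ∫ ω, (|f ω - h ω| + |h ω - (∫ x, h x ∂P) - (g ω - S.R g ω)|) ∂P =
            ∫ ω, |f ω - h ω| ∂P + ∫ ω, |h ω - (∫ x, h x ∂P) - (g ω - S.R g ω)| ∂P :=
          integral_add i1 i2
        rw [e1, e2]
        simp
    _ ≤ η := by linarith

/-! ### The pointwise ergodic theorem -/

lemma bad_null [Nonempty D] [IsProbabilityMeasure P] (hE : S.Erg) {f : Ω → ℝ}
    (hm : Measurable f) (hf : Integrable f P) {ε : ℝ} (hε : 0 < ε) :
    P {ω | ∃ᶠ n : ℕ in atTop, ε < |Sm S f n ω / n - ∫ x, f x ∂P|} = 0 := by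
  rw [← nonpos_iff_eq_zero]
  refine ENNReal.le_of_forall_pos_le_add fun δ hδ _ => ?_
  rw [zero_add]
  have hδ' : (0 : ℝ) < δ := hδ
  obtain ⟨g, hgm, ⟨K, hK⟩, hg⟩ := decomp S hE hm hf (show (0:ℝ) < δ * (ε / 2) by positivity)
  set r : Ω → ℝ := fun ω => f ω - (∫ x, f x ∂P) - (g ω - S.R g ω) with hr
  have hgi : Integrable g P := Integrable.of_bound hgm.aestronglyMeasurable K
    (Eventually.of_forall hK)
  have hrm : Measurable r := (hm.sub_const _).sub (hgm.sub (meas_R S hgm))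
  have hri : Integrable r P := (hf.sub (integrable_const _)).sub (hgi.sub (int_R S hgi))
  have hmax := maximal S (f := fun ω => |r ω|) hrm.norm hri.abs (fun ω => abs_nonneg _)
    (show (0:ℝ) < ε / 2 by positivity)
  have hsub : {ω | ∃ᶠ n : ℕ in atTop, ε < |Sm S f n ω / n - ∫ x, f x ∂P|} ⊆
      {ω | ∃ n : ℕ, 1 ≤ n ∧ ε / 2 * n < Sm S (fun ω => |r ω|) n ω} := by
    intro ω hω
    obtain ⟨N, hN⟩ := exists_nat_gt (2 * K / (ε / 2))
    obtain ⟨n, hn, hnN⟩ := (Frequently.and_eventually hω (eventually_ge_atTop (max N 1))).exists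
    have hn1 : 1 ≤ n := (le_max_right _ _).trans hnN
    have hnN' : (N : ℝ) ≤ n := by exact_mod_cast (le_max_left _ _).trans hnN
    have hnpos : (0 : ℝ) < n := by exact_mod_cast hn1
    refine ⟨n, hn1, ?_⟩
    have h1 : Sm S f n ω = n * (∫ x, f x ∂P) + (g ω - S.Rit g n ω) + Sm S r n ω := by
      have h2 : f = fun ω => ((∫ x, f x ∂P) + (g ω - S.R g ω)) + r ω := by
        funext ω
        simp only [hr]
        ring
      have h3 := Sm_add S (fun ω => (∫ x, f x ∂P) + (g ω - S.R g ω)) r n ω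
      rw [← h2, Sm_add S (fun _ => (∫ x, f x ∂P)) (fun ω => g ω - S.R g ω), Sm_const,
        Sm_tele] at h3
      exact h3
    have h4 : Sm S f n ω / n - ∫ x, f x ∂P = (g ω - S.Rit g n ω + Sm S r n ω) / n := by
      rw [h1]
      field_simp
      ring
    have h5 : ε < |(g ω - S.Rit g n ω + Sm S r n ω) / n| := by
      rw [← h4]; exact hn
    rw [abs_div, abs_of_pos hnpos, lt_div_iff₀ hnpos] at h5
    have h6 : |g ω - S.Rit g n ω + Sm S r n ω| ≤ 2 * K + Sm S (fun ω => |r ω|) n ω := by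
      have h7 := abs_add_three (g ω) (-S.Rit g n ω) (Sm S r n ω)
      rw [abs_neg] at h7
      have h8 := hK ω
      have h9 := Rit_bound S hK n ω
      have h10 := Sm_abs S r n ω
      have h11 : g ω + -S.Rit g n ω + Sm S r n ω = g ω - S.Rit g n ω + Sm S r n ω := by ring
      rw [h11] at h7
      linarith
    have h12 : 2 * K < ε / 2 * n := by
      have h13 : 2 * K / (ε / 2) < n := lt_of_lt_of_le hN hnN'
      rw [div_lt_iff₀ (by positivity)] at h13
      linarith
    linarith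
  refine (measure_mono hsub).trans (hmax.trans ?_)
  have h14 : (∫ ω, |r ω| ∂P) / (ε / 2) ≤ (δ : ℝ) := by
    rw [div_le_iff₀ (by positivity)]
    exact hg
  calc ENNReal.ofReal ((∫ ω, |r ω| ∂P) / (ε / 2)) ≤ ENNReal.ofReal (δ : ℝ) :=
        ENNReal.ofReal_le_ofReal h14
    _ = δ := ENNReal.ofReal_coe_nnreal

/-- Packet E. -/
theorem stmtE : StmtE := by
  intro Ω D _ _ _ P _ S hE f hm hf
  have h1 : ∀ᵐ ω ∂P, ∀ j : ℕ,
      ¬ ∃ᶠ n : ℕ in atTop, 1 / ((j : ℝ) + 1) < |Sm S f n ω / n - ∫ x, f x ∂P| := by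
    rw [ae_all_iff]
    intro j
    have h2 := bad_null S hE hm hf (ε := 1 / ((j : ℝ) + 1)) (by positivity)
    rw [ae_iff]
    simpa only [not_not] using h2
  filter_upwards [h1] with ω hω
  rw [Metric.tendsto_atTop']
  intro ε hε
  obtain ⟨j, hj⟩ := exists_nat_one_div_lt hε
  have h3 := not_frequently.mp (hω j)
  obtain ⟨N, hN⟩ := eventually_atTop.mp h3
  refine ⟨N, fun n hn => ?_⟩
  have h4 := not_lt.mp (hN n (le_of_lt hn))
  rw [Real.dist_eq]
  exact lt_of_le_of_lt h4 hj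

end Pool.Agent.Helper93.Qip
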