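import Pool.Agent.Helper58.Qip.Stmts2
import Pool.Agent.Helper93.Qip.StmtE

set_option autoImplicit false

/-!
# Packet E0: constants and coboundaries of bounded functions are dense in L1
-/

open MeasureTheory Filter Topology

namespace Pool.Agent.Helper93.Qip

/-- Packet E0. -/
theorem stmtE0 : Pool.Agent.Helper58.Qip.StmtE0 := by
  intro Ω D _ _ _ P _ S hE f hm hf ε hε
  exact decomp S hE hm hf hε

end Pool.Agent.Helper93.Qip
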